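import Pool.Agent.H.MP_418eb4_lc.Alg

namespace Pool.Agent.Results.MP_f76ce6_lc.Yes
open Classical Encodable Pool.Agent.Lib.PR Pool.Agent.H.MP_418eb4_lc

/-- isomorphism of n-generated c.e. algebras for the signature of constants c 0, c 1, ... and no laws -/
def I (n : ℕ) : ℕ → ℕ → Prop := Isom (C := ℕ) (F := Empty) ∅ n

abbrev T (n : ℕ) := Tm ℕ Empty (Fin n)
abbrev Cn (n e : ℕ) : T n → T n → Prop := Con ∅ (W e)
def c {n} (i : ℕ) : T n := (.inr i, [])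
def v {n} (i : Fin n) : T n := (.inl i, [])
def Nm (n e : ℕ) (i : Fin n) : Prop := ∃ k, Cn n e (v i) (c k)
def U (n e : ℕ) := {q : Quot (Cn n e) // ¬ q ∈ Set.range fun k => Quot.mk _ (c k)}

theorem cases {n} (t : T n) : (∃ i, t = v i) ∨ ∃ k, t = c k := by
  obtain ⟨i | k, _ | ⟨⟨⟩, _⟩⟩ := t
  exacts [.inl ⟨i, rfl⟩, .inr ⟨k, rfl⟩]

theorem iso {n e i} : I n e i ↔ (∀ k l, Cn n e (c k) (c l) ↔ Cn n i (c k) (c l)) ∧ Nonempty (U n e ≃ U n i) := by
  constructor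
  · rintro ⟨φ, a, -⟩
    exact ⟨fun k l => mk_eq.symm.trans (φ.apply_eq_iff_eq.symm.trans (by rw [c, c, a, a]; exact mk_eq)),
      ⟨φ.subtypeEquiv fun q => not_congr (exists_congr fun k => φ.apply_eq_iff_eq.symm.trans
        (Eq.congr_left (a k)))⟩⟩
  · rintro ⟨a, ⟨b⟩⟩
    let f : Set.range (fun k => Quot.mk (Cn n e) (c k)) → Set.range fun k => Quot.mk (Cn n i) (c k) :=
      fun q => ⟨_, q.2.choose, rfl⟩
    have h : ∀ k, f ⟨_, k, rfl⟩ = ⟨_, k, rfl⟩ := fun k => Subtype.ext (mk_eq.2 ((a _ _).1 (mk_eq.1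
      (Exists.choose_spec (p := fun l => Quot.mk (Cn n e) (c l) = Quot.mk _ (c k)) _))))
    refine ⟨(Equiv.sumCompl _).symm.trans (((Equiv.ofBijective f ⟨?_, ?_⟩).sumCongr b).trans (Equiv.sumCompl _)),
      fun k => ?_, nofun⟩
    · rintro ⟨_, k, rfl⟩ ⟨_, l, rfl⟩ o
      rw [h, h] at o
      exact Subtype.ext (mk_eq.2 ((a _ _).2 (mk_eq.1 (congrArg Subtype.val o))))
    · rintro ⟨_, k, rfl⟩
      exact ⟨_, h k⟩
    · refine (congrArg (((Equiv.ofBijective f _).sumCongr b).trans (Equiv.sumCompl _))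
        (Equiv.sumCompl_symm_apply_of_pos (by exact ⟨k, rfl⟩))).trans ?_
      exact congrArg Subtype.val (h k)

theorem U_rep {n e} (q : U n e) : ∃ i, ¬ Nm n e i ∧ q.1 = .mk _ (v i) := by
  obtain ⟨⟨t⟩, h⟩ := q
  rcases cases t with ⟨i, rfl⟩ | ⟨k, rfl⟩
  exacts [⟨i, fun ⟨k, l⟩ => h ⟨k, mk_eq.2 l.symm⟩, rfl⟩, (h ⟨k, rfl⟩).elim]

def mkU {n e} (i) (h : ¬ Nm n e i) : U n e := ⟨.mk _ (v i), fun ⟨k, l⟩ => h ⟨k, (mk_eq.1 l).symm⟩⟩

theorem emp {n e} : IsEmpty (U n e) ↔ ∀ i, Nm n e i :=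
  ⟨fun h i => by_contra fun k => h.elim (mkU i k), fun h => ⟨fun q => let ⟨i, k, _⟩ := U_rep q; k (h i)⟩⟩

theorem iso1 {e i} : I 1 e i ↔ (∀ k l, Cn 1 e (c k) (c l) ↔ Cn 1 i (c k) (c l)) ∧ (Nm 1 e 0 ↔ Nm 1 i 0) := by
  have s : ∀ e, Subsingleton (U 1 e) := fun e => ⟨fun p q => by
    obtain ⟨i, -, a⟩ := U_rep p
    obtain ⟨j, -, b⟩ := U_rep q
    exact Subtype.ext (by rw [a, b, Subsingleton.elim i j])⟩
  rw [iso, ← Fin.forall_fin_one (p := Nm 1 e), ← Fin.forall_fin_one (p := Nm 1 i), ← emp, ← emp]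
  refine and_congr_right' ⟨fun ⟨φ⟩ => φ.isEmpty_congr, fun h => ?_⟩
  by_cases k : IsEmpty (U 1 e)
  · exact have := h.1 k; ⟨Equiv.equivOfIsEmpty ..⟩
  · have := not_isEmpty_iff.1 k
    have := not_isEmpty_iff.1 (mt h.2 k)
    exact ⟨equivOfSubsingletonOfSubsingleton (fun _ => Classical.arbitrary _) fun _ => Classical.arbitrary _⟩

def P (e : ℕ) : Prop := Cn 2 e (v 0) (v 1) ∨ Nm 2 e 0 ∨ Nm 2 e 1

theorem iso2 {e i} : I 2 e i ↔ (∀ k l, Cn 2 e (c k) (c l) ↔ Cn 2 i (c k) (c l)) ∧ (P e ↔ P i) ∧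
    (Nm 2 e 0 ∧ Nm 2 e 1 ↔ Nm 2 i 0 ∧ Nm 2 i 1) := by
  have s : ∀ e, Subsingleton (U 2 e) ↔ P e := fun e => ⟨fun h => by_contra fun k => by
    simp only [P, not_or] at k
    exact k.1 (mk_eq.1 (congrArg Subtype.val (h.elim (mkU 0 k.2.1) (mkU 1 k.2.2)))), fun h => ⟨fun p q => by
      obtain ⟨i, a, b⟩ := U_rep p
      obtain ⟨j, c, d⟩ := U_rep q
      refine Subtype.ext (b.trans (.trans (mk_eq.2 ?_) d.symm))
      fin_cases i <;> fin_cases j
      exacts [.refl _, (h.resolve_right (not_or.2 ⟨a, c⟩)), (h.resolve_right (not_or.2 ⟨c, a⟩)).symm, .refl _]⟩⟩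
  have t : ∀ e, ¬ P e → Nonempty (Fin 2 ≃ U 2 e) := fun e k => by
    simp only [P, not_or] at k
    refine ⟨.ofBijective (fun i => mkU i (by fin_cases i; exacts [k.2.1, k.2.2])) ⟨fun i j o => ?_,
      fun q => let ⟨i, _, a⟩ := U_rep q; ⟨i, Subtype.ext a.symm⟩⟩⟩
    have := mk_eq.1 (congrArg Subtype.val o)
    fin_cases i <;> fin_cases j
    exacts [rfl, (k.1 this).elim, (k.1 this.symm).elim, rfl]
  rw [iso, ← Fin.forall_fin_two (p := Nm 2 e), ← Fin.forall_fin_two (p := Nm 2 i), ← emp, ← emp]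
  refine and_congr_right' ⟨fun ⟨φ⟩ => ⟨by rw [← s, ← s]; exact φ.subsingleton_congr, φ.isEmpty_congr⟩, fun h => ?_⟩
  by_cases p : P e
  · have := (s e).2 p
    have := (s i).2 (h.1.1 p)
    by_cases k : IsEmpty (U 2 e)
    · exact have := h.2.1 k; ⟨Equiv.equivOfIsEmpty ..⟩
    · have := not_isEmpty_iff.1 k
      have := not_isEmpty_iff.1 (mt h.2.2 k)
      exact ⟨equivOfSubsingletonOfSubsingleton (fun _ => Classical.arbitrary _) fun _ => Classical.arbitrary _⟩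
  · exact ⟨(t e p).some.symm.trans (t i (mt h.1.2 p)).some⟩

attribute [local irreducible] Primrec Computable

theorem rc (n) : REPred fun z : ℕ × T n × T n => Cn n z.1 z.2.1 z.2.2 :=
  re_con ((Primrec.const false).of_eq fun _ => by simp [cd])

theorem mkr {n} {θ : ℕ → T n → T n → Prop} (a : ∀ e, Equivalence (θ e))
    (b : REPred fun z : ℕ × T n × T n => θ z.1 z.2.1 z.2.2) : ∃ h : ℕ → ℕ, Computable h ∧ ∀ e, Cn n (h e) = θ e := by
  obtain ⟨h, k, l⟩ := smn_idx (re_exi (P := fun z : (ℕ × ℕ) × T n × T n => z.1.2 = encode z.2 ∧ θ z.1.1 z.2.1 z.2.2)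
    (re_and (re_prim (by fun_prop)) (re_comp b (g := fun z : (ℕ × ℕ) × T n × T n => (z.1.1, z.2)) (by fun_prop))))
  refine ⟨h, k, fun e => funext₂ fun s t => propext ⟨fun o => ?_, fun o => .base ((l _ _).2 ⟨(s, t), rfl, o⟩)⟩⟩
  induction o with
  | base o => obtain ⟨p, q, r⟩ := (l _ _).1 o; cases encode_injective q; exact r
  | law _ o => exact o.elim
  | refl => exact (a e).refl _
  | symm _ ih => exact (a e).symm ih
  | trans _ _ i j => exact (a e).trans i j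
  | op f => exact f.elim

theorem pc {n} : Primrec (c (n := n)) := (Primrec.sumInr.comp .id).pair (.const _)

theorem rn (n i) : REPred fun e => Nm n e i :=
  re_exi (re_comp (rc n) (g := fun z : ℕ × ℕ => (z.1, v i, c z.2)) (c_prim (by have := pc (n := n); fun_prop)))

theorem result : (∃ s t : Tm ℕ Empty ℕ, ¬ Con ∅ ∅ s t) ∧ Red (I 1) (I 2) ∧ Red (I 2) (I 1) ∧ Sig3 (I 1) ∧
    ¬ Complete (I 1) ∧ ∀ E, Complete E → Red (I 1) E ∧ ¬ Red E (I 1) := by
  have p : Pi2 fun z : ℕ × ℕ => I 1 z.1 z.2 := by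
    have := pc (n := 1)
    exact ((Pi2.all (Pi2.iff (re_comp (rc 1) (g := fun z : (ℕ × ℕ) × ℕ × ℕ => (z.1.1, c z.2.1, c z.2.2))
      (c_prim (by fun_prop))) (re_comp (rc 1) (g := fun z : (ℕ × ℕ) × ℕ × ℕ => (z.1.2, c z.2.1, c z.2.2))
      (c_prim (by fun_prop))))).and (Pi2.iff (re_comp (rn 1 0) .fst) (re_comp (rn 1 0) .snd))).of_eq
      fun _ => by rw [iso1, Prod.forall]
  have s3 : Sig3 (I 1) := by
    obtain ⟨R, a, b⟩ := p
    obtain ⟨N, c, d, -, e⟩ := re_bool a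
    exact ⟨fun z => N (z.1, z.2.2.1) z.2.2.2 = true, (pred (by fun_prop)).computablePred, fun x y => (b (x, y)).trans
      ⟨fun k => ⟨0, fun n => e _ (k n)⟩, fun ⟨_, k⟩ n => let ⟨_, k⟩ := k n; d _ _ k⟩⟩
  have nc : ¬ Complete (I 1) := not_complete fun i => p.comp (Computable.id.pair (.const i))
  refine ⟨⟨(.inr 0, []), (.inr 1, []), fun h => ?_⟩, ?_, ?_, s3, nc, fun E h => ⟨h.2 _ ⟨fun _ => by simp [iso1],
    by simp only [iso1]; grind, by simp only [iso1]; grind⟩ s3, fun ⟨f, a, b⟩ => nc ⟨s3, fun G i j =>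
      let ⟨g, c, d⟩ := h.2 G i j; ⟨_, a.comp c, fun x y => (d x y).trans (b _ _)⟩⟩⟩⟩
  · have : ∀ s t : Tm ℕ Empty ℕ, Con ∅ ∅ s t → s = t := fun s t h => by
      induction h with
      | base o => exact o.elim
      | law _ o => exact o.elim
      | refl => rfl
      | symm _ ih => exact ih.symm
      | trans _ _ i j => exact i.trans j
      | op f => exact f.elim
    cases this _ _ h
  · let r : T 2 → T 1 := fun t => (t.1.map (fun _ => 0) id, [])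
    have : Primrec r := (Primrec.sumCasesOn (g := fun _ _ => Sum.inl 0) (h := fun _ k => Sum.inr k) .fst (.const _)
      (Primrec.sumInr.comp .snd)).pair (.const _) |>.of_eq fun ⟨a, _⟩ => by cases a <;> rfl
    obtain ⟨h, a, b⟩ := mkr (θ := fun e s t => Cn 1 e (r s) (r t)) (fun e => Con.eqv.comap r)
      (re_comp (rc 1) (g := fun z : ℕ × T 2 × T 2 => (z.1, r z.2.1, r z.2.2)) (c_prim (by fun_prop)))
    refine ⟨h, a, fun x y => ?_⟩
    simp only [iso1, iso2, P, Nm, b]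
    exact and_congr_right' ⟨fun k => ⟨iff_of_true (.inl (.refl _)) (.inl (.refl _)), and_congr k k⟩,
      fun k => and_self_iff.symm.trans (k.2.trans and_self_iff)⟩
  · let m : T 1 → ℕ := fun t => t.1.elim (fun _ => 0) id
    have : Primrec m := (Primrec.sumCasesOn (g := fun _ _ => 0) (h := fun _ k => k) .fst (.const _)
      .snd).of_eq fun ⟨a, _⟩ => by cases a <;> rfl
    let Z : ℕ → ℕ → Prop := fun e k => k = 0 ∨ (k = 1 ∧ P e) ∨ (k = 2 ∧ Nm 2 e 0 ∧ Nm 2 e 1)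
    have rz : REPred fun z : ℕ × ℕ => Z z.1 z.2 := re_or (re_prim (by fun_prop)) (re_or (re_and (re_prim (by fun_prop))
      (re_comp (re_or (re_comp (rc 2) (g := fun e => (e, v 0, v 1)) (by fun_prop)) (re_or (rn 2 0) (rn 2 1))) .fst))
      (re_and (re_prim (by fun_prop)) (re_comp (re_and (rn 2 0) (rn 2 1)) .fst)))
    have := pc (n := 2)
    obtain ⟨h, a, b⟩ := mkr (θ := fun e s t => m s = m t ∨ (Z e (m s) ∧ Z e (m t)) ∨
      ((3 ≤ m s ∧ 3 ≤ m t) ∧ Cn 2 e (c (m s - 3)) (c (m t - 3)))) (fun e => ⟨fun _ => .inl rfl,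
        fun k => k.imp .symm (.imp .symm (.imp .symm .symm)), by
          rintro s t u (k | k | k) (l | l | l)
          exacts [.inl (k.trans l), k ▸ .inr (.inl l), k ▸ .inr (.inr l), l ▸ .inr (.inl k), .inr (.inl ⟨k.1, l.2⟩),
            by simp only [Z] at k; omega, l ▸ .inr (.inr k), by simp only [Z] at l; omega,
            .inr (.inr ⟨⟨k.1.1, l.1.2⟩, k.2.trans l.2⟩)]⟩)
      (re_or (re_prim (by fun_prop)) (re_or (re_and
        (re_comp rz (g := fun z : ℕ × T 1 × T 1 => (z.1, m z.2.1)) (c_prim (by fun_prop)))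
        (re_comp rz (g := fun z : ℕ × T 1 × T 1 => (z.1, m z.2.2)) (c_prim (by fun_prop))))
        (re_and (re_prim (by fun_prop)) (re_comp (rc 2) (g := fun z : ℕ × T 1 × T 1 =>
          (z.1, c (m z.2.1 - 3), c (m z.2.2 - 3))) (c_prim (by fun_prop))))))
    refine ⟨h, a, fun x y => ?_⟩
    have : ∀ k, m (c k) = k := fun _ => rfl
    simp only [iso1, iso2, Nm, b, this]
    refine ⟨fun k => ⟨fun i j => by simp only [Z, Nm, k], iff_of_true ⟨0, .inl rfl⟩ ⟨0, .inl rfl⟩⟩,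
      fun ⟨k, _⟩ => ⟨fun i j => ?_, by simpa [Z] using k 1 0, by simpa [Z, Nm] using k 2 0⟩⟩
    by_cases o : i = j
    · exact o ▸ iff_of_true (.refl _) (.refl _)
    · simpa [Z, o] using k (i + 3) (j + 3)

end Pool.Agent.Results.MP_f76ce6_lc.Yes
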